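import Mathlib
import Pool.Agent.Hhelper9.Twins.MT

/-!
MP_eb68d6_co. Permutations which avoid a fixed pattern contain twins of linear length.

Let `k ≥ 1`, `c = 4 k^4 * choose (2 k^2) k`. If a permutation `π` of length `n` does not contain
some pattern `σ` of length `k`, then it contains a twin of length `⌊n / (8 c)⌋`.
-/

namespace Pool.Agent.Results.MP_eb68d6_co.AvoidingPattern

open Pool.Agent.Hhelper9.Twins

/-- the permutation `π` contains a twin of length `t`: two order-isomorphic subsequences with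
disjoint index sets (`f` and `g` list the indices in increasing order) -/
def HasTwin {n : ℕ} (π : Equiv.Perm (Fin n)) (t : ℕ) : Prop :=
  ∃ f g : Fin t ↪o Fin n, (∀ i j, f i ≠ g j) ∧
    ∀ i j, (π (f i) < π (f j) ↔ π (g i) < π (g j))

/-- the permutation `π` contains the pattern `σ` -/
def Contains {n k : ℕ} (π : Equiv.Perm (Fin n)) (σ : Equiv.Perm (Fin k)) : Prop :=
  ∃ f : Fin k ↪o Fin n, ∀ i j, (π (f i) < π (f j) ↔ σ i < σ j)

/-- the cells of the graph of `π` -/
def cells {n : ℕ} (π : Equiv.Perm (Fin n)) : Finset (ℕ × ℕ) :=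
  Finset.univ.image fun i : Fin n => (i.val, (π i).val)

theorem contains_of_cont {n k : ℕ} {π : Equiv.Perm (Fin n)} {σ : Equiv.Perm (Fin k)}
    (h : Cont (cells π) σ) : Contains π σ := by
  obtain ⟨f, g, hf, hg, hS⟩ := h
  have h1 : ∀ a, ∃ i : Fin n, i.val = f a ∧ (π i).val = g (σ a) := by
    intro a
    obtain ⟨i, -, hi⟩ := Finset.mem_image.1 (hS a)
    exact ⟨i, congrArg Prod.fst hi, congrArg Prod.snd hi⟩
  choose e he1 he2 using h1
  have hmono : StrictMono e := by
    intro a b hab
    rw [Fin.lt_def, he1, he1]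
    exact hf hab
  refine ⟨OrderEmbedding.ofStrictMono e hmono, fun i j => ?_⟩
  show π (e i) < π (e j) ↔ σ i < σ j
  rw [Fin.lt_def, he2, he2]
  exact hg.lt_iff_lt

theorem card_cells {n : ℕ} (π : Equiv.Perm (Fin n)) : (cells π).card = n := by
  rw [cells, Finset.card_image_of_injective, Finset.card_univ, Fintype.card_fin]
  intro i j hij
  exact Fin.ext (congrArg Prod.fst hij)

/-- at most `K` cells in a strip of columns -/
theorem col_strip {n : ℕ} (π : Equiv.Perm (Fin n)) {K : ℕ} (hK : 0 < K) (X : ℕ) :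
    ((cells π).filter fun p => p.1 / K = X).card ≤ K := by
  have h : ((cells π).filter fun p => p.1 / K = X).card ≤
      (Finset.Ico (X * K) (X * K + K)).card := by
    refine Finset.card_le_card_of_injOn Prod.fst ?_ ?_
    · intro p hp
      rw [Finset.mem_coe, Finset.mem_filter] at hp
      rw [Finset.mem_coe, Finset.mem_Ico, ← hp.2]
      have e1 := Nat.div_add_mod p.1 K
      have e3 := Nat.mod_lt p.1 hK
      rw [mul_comm] at e1
      exact ⟨by omega, by omega⟩
    · intro p hp q hq hpq
      rw [Finset.mem_coe, Finset.mem_filter] at hp hq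
      obtain ⟨i, -, hi⟩ := Finset.mem_image.1 hp.1
      obtain ⟨j, -, hj⟩ := Finset.mem_image.1 hq.1
      have : i = j := by
        apply Fin.ext
        rw [← hi, ← hj] at hpq
        exact hpq
      rw [← hi, ← hj, this]
  rwa [Nat.card_Ico, Nat.add_sub_cancel_left] at h

/-- at most `K` cells in a strip of rows -/
theorem row_strip {n : ℕ} (π : Equiv.Perm (Fin n)) {K : ℕ} (hK : 0 < K) (Y : ℕ) :
    ((cells π).filter fun p => p.2 / K = Y).card ≤ K := by
  have h : ((cells π).filter fun p => p.2 / K = Y).card ≤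
      (Finset.Ico (Y * K) (Y * K + K)).card := by
    refine Finset.card_le_card_of_injOn Prod.snd ?_ ?_
    · intro p hp
      rw [Finset.mem_coe, Finset.mem_filter] at hp
      rw [Finset.mem_coe, Finset.mem_Ico, ← hp.2]
      have e1 := Nat.div_add_mod p.2 K
      have e3 := Nat.mod_lt p.2 hK
      rw [mul_comm] at e1
      exact ⟨by omega, by omega⟩
    · intro p hp q hq hpq
      rw [Finset.mem_coe, Finset.mem_filter] at hp hq
      obtain ⟨i, -, hi⟩ := Finset.mem_image.1 hp.1
      obtain ⟨j, -, hj⟩ := Finset.mem_image.1 hq.1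
      have : i = j := by
        apply π.injective
        apply Fin.ext
        rw [← hi, ← hj] at hpq
        exact hpq
      rw [← hi, ← hj, this]
  rwa [Nat.card_Ico, Nat.add_sub_cancel_left] at h

/-- a set of blocks with at least two cells each, pairwise in different rows and different columns
of blocks, gives a twin -/
theorem twin_of_blocks {n : ℕ} (π : Equiv.Perm (Fin n)) (K : ℕ) (I : Finset (ℕ × ℕ))
    (hI : ∀ B ∈ I, 2 ≤ (pts (cells π) K B).card)
    (hind : ∀ B ∈ I, ∀ B' ∈ I, B ≠ B' → B.1 ≠ B'.1 ∧ B.2 ≠ B'.2) : HasTwin π I.card := by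
  classical
  have h1 : ∀ B : {B // B ∈ I}, ∃ x y : Fin n, x ≠ y ∧ blk K (x.val, (π x).val) = B.1 ∧
      blk K (y.val, (π y).val) = B.1 := by
    rintro ⟨B, hB⟩
    obtain ⟨p, hp, q, hq, hpq⟩ := Finset.one_lt_card.1 (hI B hB)
    obtain ⟨hp1, hp2⟩ := mem_pts.1 hp
    obtain ⟨hq1, hq2⟩ := mem_pts.1 hq
    obtain ⟨x, -, hx⟩ := Finset.mem_image.1 hp1
    obtain ⟨y, -, hy⟩ := Finset.mem_image.1 hq1
    refine ⟨x, y, ?_, by rw [hx]; exact hp2, by rw [hy]; exact hq2⟩
    rintro rfl
    exact hpq (hx.symm.trans hy)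
  choose x y hxy hx hy using h1
  have hLc : (I.image Prod.fst).card = I.card := by
    refine Finset.card_image_of_injOn ?_
    intro B hB B' hB' hBB
    by_contra hne
    exact (hind B hB B' hB' hne).1 hBB
  set e := (I.image Prod.fst).orderEmbOfFin hLc with he
  have h2 : ∀ a, ∃ B : {B // B ∈ I}, B.1.1 = e a := by
    intro a
    have : e a ∈ I.image Prod.fst := Finset.orderEmbOfFin_mem _ _ _
    obtain ⟨B, hB, hBe⟩ := Finset.mem_image.1 this
    exact ⟨⟨B, hB⟩, hBe⟩
  choose C hC using h2
  have hlt : ∀ {u v : ℕ}, u / K < v / K → u < v := fun h => Nat.lt_of_div_lt_div h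
  have hxm : StrictMono fun a => x (C a) := by
    intro a a' haa
    have e1 := congrArg Prod.fst (hx (C a))
    have e2 := congrArg Prod.fst (hx (C a'))
    have e3 := e.strictMono haa
    rw [← hC, ← hC, ← e1, ← e2] at e3
    exact hlt e3
  have hym : StrictMono fun a => y (C a) := by
    intro a a' haa
    have e1 := congrArg Prod.fst (hy (C a))
    have e2 := congrArg Prod.fst (hy (C a'))
    have e3 := e.strictMono haa
    rw [← hC, ← hC, ← e1, ← e2] at e3
    exact hlt e3
  have hCne : ∀ {a a'}, a ≠ a' → (C a).1 ≠ (C a').1 := by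
    intro a a' haa hCC
    apply haa
    apply e.injective
    rw [← hC, ← hC, hCC]
  refine ⟨OrderEmbedding.ofStrictMono _ hxm, OrderEmbedding.ofStrictMono _ hym, ?_, ?_⟩
  · intro i j
    show x (C i) ≠ y (C j)
    by_cases hij : i = j
    · rw [hij]
      exact hxy _
    · intro hc
      apply hCne hij
      rw [← hx (C i), ← hy (C j), hc]
  · intro i j
    show π (x (C i)) < π (x (C j)) ↔ π (y (C i)) < π (y (C j))
    by_cases hij : i = j
    · rw [hij]
      simp
    · have h3 := (hind _ (C i).2 _ (C j).2 (hCne hij)).2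
      have a1 := congrArg Prod.snd (hx (C i))
      have a2 := congrArg Prod.snd (hx (C j))
      have b1 := congrArg Prod.snd (hy (C i))
      have b2 := congrArg Prod.snd (hy (C j))
      simp only [blk] at a1 a2 b1 b2
      rw [Fin.lt_def, Fin.lt_def]
      rcases lt_or_gt_of_ne h3 with h4 | h4
      · have c1 : (π (x (C i))).val < (π (x (C j))).val := hlt (by rw [a1, a2]; exact h4)
        have c2 : (π (y (C i))).val < (π (y (C j))).val := hlt (by rw [b1, b2]; exact h4)
        exact ⟨fun _ => c2, fun _ => c1⟩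
      · have c1 : (π (x (C j))).val < (π (x (C i))).val := hlt (by rw [a1, a2]; exact h4)
        have c2 : (π (y (C j))).val < (π (y (C i))).val := hlt (by rw [b1, b2]; exact h4)
        constructor
        · intro h5
          omega
        · intro h5
          omega

/-- a maximal set of independent heavy blocks -/
theorem exists_indep {n : ℕ} (π : Equiv.Perm (Fin n)) {K : ℕ} (hK : 0 < K)
    (H : Finset (ℕ × ℕ)) : ∃ I ⊆ H, (∀ B ∈ I, ∀ B' ∈ I, B ≠ B' → B.1 ≠ B'.1 ∧ B.2 ≠ B'.2) ∧
      ∑ B ∈ H, (pts (cells π) K B).card ≤ I.card * (2 * K) := by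
  classical
  set F := H.powerset.filter fun I : Finset (ℕ × ℕ) =>
    ∀ B ∈ I, ∀ B' ∈ I, B ≠ B' → B.1 ≠ B'.1 ∧ B.2 ≠ B'.2 with hF
  have hne : F.Nonempty := ⟨∅, by
    rw [hF, Finset.mem_filter]
    exact ⟨Finset.empty_mem_powerset _, by simp⟩⟩
  obtain ⟨I, hIF, hmax⟩ := F.exists_max_image Finset.card hne
  obtain ⟨hIH, hI⟩ := Finset.mem_filter.1 hIF
  rw [Finset.mem_powerset] at hIH
  refine ⟨I, hIH, hI, ?_⟩
  have hcov : ∀ B ∈ H, ∃ B0 ∈ I, B.1 = B0.1 ∨ B.2 = B0.2 := by
    intro B hB
    by_contra hc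
    push Not at hc
    have hBI : B ∉ I := fun h => (hc B h).1 rfl
    have h1 : insert B I ∈ F := by
      rw [hF, Finset.mem_filter, Finset.mem_powerset]
      refine ⟨Finset.insert_subset hB hIH, ?_⟩
      intro B1 h1 B2 h2 h12
      rw [Finset.mem_insert] at h1 h2
      rcases h1 with rfl | h1
      · rcases h2 with rfl | h2
        · exact absurd rfl h12
        · exact hc _ h2
      · rcases h2 with rfl | h2
        · exact ⟨fun h => (hc _ h1).1 h.symm, fun h => (hc _ h1).2 h.symm⟩
        · exact hI _ h1 _ h2 h12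
    have h2 := hmax _ h1
    rw [Finset.card_insert_of_notMem hBI] at h2
    omega
  have hbound : ∀ (P : ℕ × ℕ → Prop) [DecidablePred P], (∀ p ∈ cells π, P (blk K p) →
      True) → ∑ B ∈ H.filter P, (pts (cells π) K B).card ≤
      ((cells π).filter fun p => P (blk K p)).card := by
    intro P _ _
    have h1 : ∑ B ∈ H.filter P, (pts (cells π) K B).card =
        ((H.filter P).biUnion fun B => pts (cells π) K B).card := by
      rw [Finset.card_biUnion]
      intro B _ B' _ hBB
      rw [Function.onFun, Finset.disjoint_left]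
      intro p hp hp'
      exact hBB ((mem_pts.1 hp).2.symm.trans (mem_pts.1 hp').2)
    rw [h1]
    refine Finset.card_le_card ?_
    intro p hp
    obtain ⟨B, hB, hpB⟩ := Finset.mem_biUnion.1 hp
    obtain ⟨h2, h3⟩ := mem_pts.1 hpB
    rw [Finset.mem_filter, h3]
    exact ⟨h2, (Finset.mem_filter.1 hB).2⟩
  have hcolb : ∀ X, ∑ B ∈ H.filter (fun B => B.1 = X), (pts (cells π) K B).card ≤ K := fun X =>
    (hbound (fun B => B.1 = X) fun _ _ _ => trivial).trans (col_strip π hK X)
  have hrowb : ∀ Y, ∑ B ∈ H.filter (fun B => B.2 = Y), (pts (cells π) K B).card ≤ K := fun Y =>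
    (hbound (fun B => B.2 = Y) fun _ _ _ => trivial).trans (row_strip π hK Y)
  calc ∑ B ∈ H, (pts (cells π) K B).card
      ≤ ∑ B ∈ H, ∑ B0 ∈ I, ((if B.1 = B0.1 then (pts (cells π) K B).card else 0) +
          (if B.2 = B0.2 then (pts (cells π) K B).card else 0)) := by
        refine Finset.sum_le_sum fun B hB => ?_
        obtain ⟨B0, h0, h1⟩ := hcov B hB
        refine le_trans ?_ (Finset.single_le_sum (f := fun B0 : ℕ × ℕ =>
          ((if B.1 = B0.1 then (pts (cells π) K B).card else 0) +
          (if B.2 = B0.2 then (pts (cells π) K B).card else 0))) (fun _ _ => Nat.zero_le _) h0)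
        rcases h1 with h1 | h1
        · simp only [if_pos h1]
          omega
        · simp only [if_pos h1]
          omega
    _ = ∑ B0 ∈ I, (∑ B ∈ H.filter (fun B => B.1 = B0.1), (pts (cells π) K B).card +
          ∑ B ∈ H.filter (fun B => B.2 = B0.2), (pts (cells π) K B).card) := by
        rw [Finset.sum_comm]
        refine Finset.sum_congr rfl fun B0 _ => ?_
        rw [Finset.sum_add_distrib, Finset.sum_filter, Finset.sum_filter]
    _ ≤ ∑ _B0 ∈ I, (2 * K) := by
        refine Finset.sum_le_sum fun B0 _ => ?_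
        have := hcolb B0.1
        have := hrowb B0.2
        omega
    _ = I.card * (2 * K) := by simp

theorem result (k : ℕ) (hk : 1 ≤ k) (n : ℕ) (π : Equiv.Perm (Fin n)) (σ : Equiv.Perm (Fin k))
    (h : ¬ Contains π σ) :
    HasTwin π (n / (32 * k ^ 4 * (2 * k ^ 2).choose k)) := by
  classical
  set c := Pool.Agent.Hhelper9.Twins.mt k with hc
  have hc1 : 0 < c := by
    have h1 : 0 < (2 * k ^ 2).choose k := Nat.choose_pos (by nlinarith)
    rw [hc, Pool.Agent.Hhelper9.Twins.mt]
    positivity
  have hC : 32 * k ^ 4 * (2 * k ^ 2).choose k = 8 * c := by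
    rw [hc, Pool.Agent.Hhelper9.Twins.mt]
    ring
  rw [hC]
  rcases Nat.eq_zero_or_pos n with hn | hn
  · subst hn
    rw [Nat.zero_div]
    exact ⟨OrderEmbedding.ofStrictMono (fun a => a.elim0) (fun a => a.elim0),
      OrderEmbedding.ofStrictMono (fun a => a.elim0) (fun a => a.elim0),
      fun a => a.elim0, fun a => a.elim0⟩
  set K := 2 * c with hK
  have hK0 : 0 < K := by omega
  set S' := (cells π).image (blk K) with hS'
  set M := (n - 1) / K + 1 with hM
  have hS'M : ∀ p ∈ S', p.1 < M ∧ p.2 < M := by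
    intro p hp
    obtain ⟨q, hq, rfl⟩ := Finset.mem_image.1 hp
    obtain ⟨i, -, rfl⟩ := Finset.mem_image.1 hq
    constructor
    · show i.val / K < M
      have h1 := i.isLt
      have : i.val / K ≤ (n - 1) / K := Nat.div_le_div_right (by omega)
      omega
    · show (π i).val / K < M
      have h1 := (π i).isLt
      have : (π i).val / K ≤ (n - 1) / K := Nat.div_le_div_right (by omega)
      omega
  have hnc : ¬ Cont (cells π) σ := fun hco => h (contains_of_cont hco)
  have hcard : S'.card ≤ c * M :=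
    marcus_tardos M S' hS'M fun hco => hnc (cont_of_blk hco)
  have hMK : c * M * 2 ≤ n - 1 + 2 * c := by
    have h1 : (n - 1) / K * K ≤ n - 1 := Nat.div_mul_le_self _ _
    have h2 : c * M * 2 = (n - 1) / K * K + 2 * c := by
      rw [hM, hK]
      ring
    omega
  set H := S'.filter fun B => 2 ≤ (pts (cells π) K B).card with hH
  obtain ⟨I, hIH, hind, hI⟩ := exists_indep π hK0 H
  have hsum : n ≤ S'.card + ∑ B ∈ H, (pts (cells π) K B).card := by
    calc n = (cells π).card := (card_cells π).symm
      _ = ∑ B ∈ S', (pts (cells π) K B).card := Finset.card_eq_sum_card_image (blk K) _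
      _ ≤ ∑ B ∈ S', (1 + if 2 ≤ (pts (cells π) K B).card then (pts (cells π) K B).card
            else 0) := by
          refine Finset.sum_le_sum fun B _ => ?_
          split_ifs with h1
          · omega
          · omega
      _ = S'.card + ∑ B ∈ H, (pts (cells π) K B).card := by
          rw [Finset.sum_add_distrib, Finset.sum_const, smul_eq_mul, mul_one,
            ← Finset.sum_filter]
  have htw := twin_of_blocks π K I (fun B hB => (Finset.mem_filter.1 (hIH hB)).2) hind
  have hle : n / (8 * c) ≤ I.card := by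
    by_contra hlt
    push Not at hlt
    have h1 : (I.card + 1) * (8 * c) ≤ n := by
      calc (I.card + 1) * (8 * c) ≤ n / (8 * c) * (8 * c) := Nat.mul_le_mul_right _ hlt
        _ ≤ n := Nat.div_mul_le_self _ _
    have h2 : I.card * (2 * K) * 2 = I.card * (8 * c) := by
      rw [hK]
      ring
    have h3 : (I.card + 1) * (8 * c) = I.card * (8 * c) + 8 * c := by ring
    omega
  -- a shorter twin
  obtain ⟨f, g, hfg, hiso⟩ := htw
  exact ⟨(Fin.castLEOrderEmb hle).trans f, (Fin.castLEOrderEmb hle).trans g,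
    fun i j => hfg _ _, fun i j => hiso _ _⟩

end Pool.Agent.Results.MP_eb68d6_co.AvoidingPattern
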