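import Pool.Agent.STw2.L

/-!
MP_eb68d6_co. Permutations without crowded thin boxes satisfy the conjectured bound.

Let `w ^ 3 ≤ n` and `K ≥ 1`, and let `P` be a set of at least half of the positions of a
permutation `π` of length `n ≥ 12`. If every box of size `w × w^2` and every box of size `w^2 × w`
contains at most `K` entries of `π` with position in `P`, then `π` contains a twin of length at
least `w^2 / (12000000 K^2)`.  With `w = ⌊n^(1/3)⌋` this has the order `n^(2/3) / K^2`.
-/

namespace Pool.Agent.Results.MP_eb68d6_co.BalancedTwins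

/-- the permutation `π` contains a twin of length `t`: two order-isomorphic subsequences with
disjoint index sets (`f` and `g` list the indices in increasing order) -/
def HasTwin {n : ℕ} (π : Equiv.Perm (Fin n)) (t : ℕ) : Prop :=
  ∃ f g : Fin t ↪o Fin n, (∀ i j, f i ≠ g j) ∧
    ∀ i j, (π (f i) < π (f j) ↔ π (g i) < π (g j))

/-- the box with lower left corner `(a, b)`, `x` positions wide and `y` values high, contains at
most `K` of the entries of `π` with position in `P` -/
def AtMost {n : ℕ} (π : Equiv.Perm (Fin n)) (P : Finset (Fin n)) (x y K a b : ℕ) : Prop :=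
  (P.filter fun i : Fin n => (a ≤ (i : ℕ) ∧ (i : ℕ) < a + x) ∧
    (b ≤ (π i : ℕ) ∧ (π i : ℕ) < b + y)).card ≤ K

theorem result (n w K : ℕ) (hn : 12 ≤ n) (hw : 1 ≤ w) (hwn : w ^ 3 ≤ n) (hK : 1 ≤ K)
    (π : Equiv.Perm (Fin n)) (P : Finset (Fin n)) (hP : n ≤ 2 * P.card)
    (h1 : ∀ a b : ℕ, AtMost π P w (w ^ 2) K a b)
    (h2 : ∀ a b : ℕ, AtMost π P (w ^ 2) w K a b) :
    ∃ k : ℕ, (w : ℝ) ^ 2 / (12000000 * (K : ℝ) ^ 2) ≤ k ∧ HasTwin π k :=
  Pool.Agent.STw2.balanced hw hK hn hwn π P hP h1 h2

end Pool.Agent.Results.MP_eb68d6_co.BalancedTwins
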