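import Pool.Agent.STw.F

/-!
MP_eb68d6_co. Smoothed form of the question.

Let `π` be ANY permutation of length `n ≥ 512` and let every entry be moved by an independent
uniform noise of range `R ≥ 23 √n` in position and in value.  Then, with probability at least
`1 - exp(-n^(2/3) / 4096)`, the pattern of the perturbed points contains twins of length at least
`n^(2/3) / 400000`.
-/

namespace Pool.Agent.Results.MP_eb68d6_co.SmoothedTwins

open MeasureTheory

/-- the uniform distribution of the unit square -/
noncomputable def unitSquare : Measure (ℝ × ℝ) :=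
  (volume : Measure (ℝ × ℝ)).restrict (Set.Icc (0, 0) (1, 1))

/-- The configuration of the `n` points `(x i, y i)` contains twins of length `k`: there are two
lists `F`, `G` of `k` of the points without a common point, both increasing in the first coordinate
(the positions), whose second coordinates (the values) are in the same relative order. -/
def HasTwins {n : ℕ} (x y : Fin n → ℝ) (k : ℕ) : Prop :=
  ∃ F G : Fin k → Fin n, (∀ a b, F a ≠ G b) ∧ (∀ a b, a < b → x (F a) < x (F b)) ∧
    (∀ a b, a < b → x (G a) < x (G b)) ∧ (∀ a b, a ≠ b → y (F a) ≠ y (F b)) ∧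
    (∀ a b, y (F a) < y (F b) ↔ y (G a) < y (G b))

theorem result (n : ℕ) (hn : 512 ≤ n) (π : Equiv.Perm (Fin n)) (R : ℝ)
    (hR : 23 * Real.sqrt n ≤ R) :
    Measure.pi (fun _ : Fin n => unitSquare) {z : Fin n → ℝ × ℝ | ¬ ∃ k : ℕ,
      (n : ℝ) ^ (2 / 3 : ℝ) / 400000 ≤ k ∧
      HasTwins (fun i => ((i : ℕ) : ℝ) + R * (z i).1) (fun i => ((π i : ℕ) : ℝ) + R * (z i).2) k} ≤
      ENNReal.ofReal (Real.exp (-((n : ℝ) ^ (2 / 3 : ℝ) / 4096))) :=
  Pool.Agent.STw.smoothed hn π hR

end Pool.Agent.Results.MP_eb68d6_co.SmoothedTwins
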