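import Pool.Agent.Twin.Final

/-!
MP_eb68d6_co.  Every permutation of length `n ≥ 2` contains a twin of length at least
`c n^(11/18) / log n`.
-/

set_option autoImplicit false

namespace Pool.Agent.Results.MP_eb68d6_co.TwinElevenEighteenths

/-- There is `c > 0` such that every permutation `σ` of `n ≥ 2` elements has two disjoint
subsequences of equal length `k ≥ c n^(11/18) / log n` whose values appear in the same relative
order. -/
theorem result : ∃ c : ℝ, 0 < c ∧ ∀ n : ℕ, 2 ≤ n → ∀ σ : Equiv.Perm (Fin n),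
    ∃ k : ℕ, c * (n : ℝ) ^ ((11 : ℝ) / 18) / Real.log n ≤ (k : ℝ) ∧
      ∃ f g : Fin k ↪o Fin n, (∀ i j, f i ≠ g j) ∧
        ∀ i j, (σ (f i) < σ (f j) ↔ σ (g i) < σ (g j)) :=
  Pool.Agent.Twin.final_all

end Pool.Agent.Results.MP_eb68d6_co.TwinElevenEighteenths
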